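import Pool.Agent.LibZpIndex.Basic

set_option autoImplicit false
open Topology

namespace Pool.Agent.LibZpIndexK

open Pool.Agent.LibZpIndex

variable {k p : ℕ} [NeZero p]

/-- the largest jump of a periodic sequence in `ℝ^k` (supremum norm) -/
noncomputable def jump (u : ZMod p → Fin k → ℝ) : ℝ := ‖fun j : ZMod p => u (j + 1) - u j‖

/-- cut-off of the jump at `j` -/
noncomputable def chi (u : ZMod p → Fin k → ℝ) (j : ZMod p) : ℝ :=
  min 1 (2 * (1 - ‖u (j + 1) - u j‖ / jump u))

/-- the phase increments -/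
noncomputable def inc (u : ZMod p → Fin k → ℝ) (j : ZMod p) : ℝ :=
  -Real.pi * chi u j + Real.pi * ((∑ i, chi u i) / ∑ i, (1 - chi u i)) * (1 - chi u j)

/-- the phase -/
noncomputable def phase (u : ZMod p → Fin k → ℝ) : ℝ :=
  (p : ℝ)⁻¹ * ∑ j ∈ Finset.range p, (j : ℝ) * inc u (j : ZMod p)

/-- the map to the torus of dimension `k + 1` -/
noncomputable def tor (u : ZMod p → Fin k → ℝ) : Circle × (Fin k → Circle) :=
  (Circle.exp (phase u), fun b => Circle.exp (Real.pi * u 0 b / jump u))

lemma jump_shift (u : ZMod p → Fin k → ℝ) : jump (fun j => u (j + 1)) = jump u := by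
  unfold jump
  apply le_antisymm
  · refine (pi_norm_le_iff_of_nonneg (norm_nonneg _)).2 fun j => ?_
    exact norm_le_pi_norm (fun j : ZMod p => u (j + 1) - u j) (j + 1)
  · refine (pi_norm_le_iff_of_nonneg (norm_nonneg _)).2 fun j => ?_
    have := norm_le_pi_norm (fun j : ZMod p => u (j + 1 + 1) - u (j + 1)) (j - 1)
    simpa using this

lemma chi_shift (u : ZMod p → Fin k → ℝ) (j : ZMod p) :
    chi (fun j => u (j + 1)) j = chi u (j + 1) := by
  unfold chi
  rw [jump_shift]

lemma inc_shift (u : ZMod p → Fin k → ℝ) (j : ZMod p) :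
    inc (fun j => u (j + 1)) j = inc u (j + 1) := by
  unfold inc
  simp_rw [chi_shift]
  rw [sum_shift (chi u), sum_shift (fun j => 1 - chi u j)]

lemma chi_le_one (u : ZMod p → Fin k → ℝ) (j : ZMod p) : chi u j ≤ 1 := min_le_left _ _

lemma den_pos {u : ZMod p → Fin k → ℝ} (hu : 0 < jump u) : 0 < ∑ j, (1 - chi u j) := by
  have h1 : ∃ j, ‖u (j + 1) - u j‖ = jump u := by
    by_contra hcon
    push Not at hcon
    have h2 : ∀ j, ‖(fun j : ZMod p => u (j + 1) - u j) j‖ < jump u := fun j =>
      lt_of_le_of_ne (norm_le_pi_norm (fun j : ZMod p => u (j + 1) - u j) j) (hcon j)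
    have := (pi_norm_lt_iff hu).2 h2
    exact lt_irrefl _ this
  obtain ⟨j, hj⟩ := h1
  refine Finset.sum_pos' (fun j _ => by linarith [chi_le_one u j]) ⟨j, Finset.mem_univ _, ?_⟩
  have : chi u j ≤ 0 := by
    unfold chi
    rw [hj, div_self hu.ne']
    norm_num
  linarith

lemma sum_inc {u : ZMod p → Fin k → ℝ} (hu : 0 < jump u) : ∑ j, inc u j = 0 := by
  unfold inc
  rw [Finset.sum_add_distrib, ← Finset.mul_sum, ← Finset.mul_sum]
  have := (den_pos hu).ne'
  field_simp
  ring

lemma phase_shift {u : ZMod p → Fin k → ℝ} (hu : 0 < jump u) :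
    phase (fun j => u (j + 1)) = phase u + inc u 0 := by
  unfold phase
  simp_rw [inc_shift]
  have hp : (p : ℝ) ≠ 0 := Nat.cast_ne_zero.2 (NeZero.ne p)
  set f : ℕ → ℝ := fun j => (j : ℝ) * inc u (j : ZMod p) with hf
  have h1 : ∑ j ∈ Finset.range p, f (j + 1) = ∑ j ∈ Finset.range p, f j + f p := by
    have e1 := Finset.sum_range_succ' f p
    have e2 := Finset.sum_range_succ f p
    have e3 : f 0 = 0 := by simp [hf]
    linarith
  have h2 : ∑ j ∈ Finset.range p, inc u ((j : ZMod p) + 1) = 0 := by
    rw [sum_range_zmod (fun j => inc u (j + 1)), sum_shift (inc u)]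
    exact sum_inc hu
  have h3 : ∑ j ∈ Finset.range p, (j : ℝ) * inc u ((j : ZMod p) + 1) =
      ∑ j ∈ Finset.range p, f (j + 1) - ∑ j ∈ Finset.range p, inc u ((j : ZMod p) + 1) := by
    rw [← Finset.sum_sub_distrib]
    refine Finset.sum_congr rfl fun j _ => ?_
    rw [hf]
    push_cast
    ring
  have h4 : f p = p * inc u 0 := by
    rw [hf]
    simp
  rw [h3, h2, h1, h4]
  field_simp
  ring

lemma tor_sep {u : ZMod p → Fin k → ℝ} (hu : 0 < jump u) :
    1 ≤ dist (tor (fun j => u (j + 1))) (tor u) := by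
  rw [Prod.dist_eq]
  by_cases h : 1 / 2 ≤ ‖u (0 + 1) - u 0‖ / jump u
  · refine le_max_of_le_right ?_
    -- some coordinate realises the norm
    have hpos : 0 < ‖u (0 + 1) - u 0‖ := by
      by_contra hcon
      have h0 : ‖u (0 + 1) - u 0‖ = 0 := le_antisymm (not_lt.1 hcon) (norm_nonneg _)
      rw [h0, zero_div] at h
      norm_num at h
    obtain ⟨b, hb⟩ : ∃ b, ‖(u (0 + 1) - u 0) b‖ = ‖u (0 + 1) - u 0‖ := by
      by_contra hcon
      push Not at hcon
      have h2 : ∀ b, ‖(u (0 + 1) - u 0) b‖ < ‖u (0 + 1) - u 0‖ := fun b =>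
        lt_of_le_of_ne (norm_le_pi_norm _ b) (hcon b)
      exact lt_irrefl _ ((pi_norm_lt_iff hpos).2 h2)
    refine le_trans ?_ (dist_le_pi_dist _ _ b)
    unfold tor
    apply one_le_dist_exp
    rw [jump_shift]
    have hb' : |u (0 + 1) b - u 0 b| = ‖u (0 + 1) - u 0‖ := hb
    have h1 : |u (0 + 1) b - u 0 b| / jump u ≤ 1 := by
      rw [div_le_one hu, hb']
      exact norm_le_pi_norm (fun j : ZMod p => u (j + 1) - u j) 0
    have h2 : Real.pi * u (0 + 1) b / jump u - Real.pi * u 0 b / jump u =
        Real.pi * ((u (0 + 1) b - u 0 b) / jump u) := by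
      ring
    rw [← hb'] at h
    rw [h2, ← Real.cos_abs, abs_mul, abs_of_pos Real.pi_pos, abs_div, abs_of_pos hu]
    apply Real.cos_nonpos_of_pi_div_two_le_of_le
    · nlinarith [Real.pi_pos]
    · nlinarith [Real.pi_pos]
  · refine le_max_of_le_left ?_
    unfold tor
    apply one_le_dist_exp
    rw [phase_shift hu]
    push Not at h
    have h1 : chi u 0 = 1 := by
      unfold chi
      apply min_eq_left
      linarith
    have h2 : inc u 0 = -Real.pi := by
      unfold inc
      rw [h1]
      ring
    rw [h2]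
    have : phase u + -Real.pi - phase u = -Real.pi := by ring
    rw [this, Real.cos_neg, Real.cos_pi]
    norm_num

lemma continuous_tor {Y : Type*} [TopologicalSpace Y] {u : Y → ZMod p → Fin k → ℝ}
    (hu : Continuous u) (h : ∀ y, 0 < jump (u y)) : Continuous (fun y => tor (u y)) := by
  have hk : ∀ j : ZMod p, Continuous (fun y => u y j) := fun j => (continuous_apply j).comp hu
  have hj : Continuous (fun y => jump (u y)) := by
    unfold jump
    exact continuous_norm.comp (continuous_pi fun j => (hk (j + 1)).sub (hk j))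
  have hc : ∀ j : ZMod p, Continuous (fun y => chi (u y) j) := by
    intro j
    unfold chi
    refine continuous_const.min (continuous_const.mul (continuous_const.sub ?_))
    exact (continuous_norm.comp ((hk (j + 1)).sub (hk j))).div hj (fun y => (h y).ne')
  have hi : ∀ j : ZMod p, Continuous (fun y => inc (u y) j) := by
    intro j
    unfold inc
    refine (continuous_const.mul (hc j)).add
      ((continuous_const.mul ?_).mul (continuous_const.sub (hc j)))
    refine (continuous_finsetSum _ fun j _ => hc j).div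
      (continuous_finsetSum _ fun j _ => continuous_const.sub (hc j)) ?_
    intro y
    exact (den_pos (h y)).ne'
  have hp : Continuous (fun y => phase (u y)) := by
    unfold phase
    exact continuous_const.mul (continuous_finsetSum _ fun j _ => continuous_const.mul (hi _))
  unfold tor
  refine Continuous.prodMk (Circle.exp.continuous.comp hp) ?_
  refine continuous_pi fun b => Circle.exp.continuous.comp ?_
  exact (continuous_const.mul ((continuous_apply b).comp (hk 0))).div hj (fun y => (h y).ne')

end Pool.Agent.LibZpIndexK
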