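import Pool.Agent.LibZpIndex.Basic

set_option autoImplicit false
open Topology

namespace Pool.Agent.LibZpIndexK

open Pool.Agent.LibZpIndex

variable {p : ℕ} [NeZero p]

/-- Equivariant label functions with disjoint translates give an equivariant map to the join. -/
theorem join_map {Y Λ : Type*} [TopologicalSpace Y] [Fintype Λ] (τ : Y → Y) (N : ℕ)
    (hΛ : Fintype.card Λ = N + 1) (f : Y → Λ → ZMod p → ℝ)
    (hc : ∀ i g, Continuous (fun y => f y i g)) (h0 : ∀ y i g, 0 ≤ f y i g)
    (h1 : ∀ y i g h, f y i g ≠ 0 → f y i h ≠ 0 → g = h) (hpos : ∀ y, ∃ i g, f y i g ≠ 0)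
    (heq : ∀ y i g, f (τ y) i g = f y i (g - 1)) :
    ∃ F : Y → EZ N p, Continuous F ∧ ∀ y, F (τ y) = act (F y) := by
  classical
  let e : Fin (N + 1) ≃ Λ := (Fintype.equivFinOfCardEq hΛ).symm
  let s : Y → ℝ := fun y => ∑ i, ∑ g, f y (e i) g
  have hs : ∀ y, 0 < s y := by
    intro y
    obtain ⟨i, g, hig⟩ := hpos y
    have h2 : 0 < f y i g := lt_of_le_of_ne (h0 y i g) (Ne.symm hig)
    refine Finset.sum_pos' (fun i _ => Finset.sum_nonneg fun g _ => h0 y _ g)
      ⟨e.symm i, Finset.mem_univ _, ?_⟩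
    refine Finset.sum_pos' (fun g _ => h0 y _ g) ⟨g, Finset.mem_univ _, ?_⟩
    rw [Equiv.apply_symm_apply]
    exact h2
  have hsc : Continuous s := continuous_finsetSum _ fun i _ => continuous_finsetSum _ fun g _ => hc _ g
  have hsτ : ∀ y, s (τ y) = s y := by
    intro y
    refine Finset.sum_congr rfl fun i _ => ?_
    simp only [heq]
    exact Equiv.sum_comp (Equiv.subRight (1 : ZMod p)) (fun g => f y (e i) g)
  refine ⟨fun y => ⟨fun i g => f y (e i) g / s y, fun i g => div_nonneg (h0 _ _ _) (hs y).le, ?_,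
    ?_⟩, ?_, ?_⟩
  · simp only [← Finset.sum_div]
    exact div_self (hs y).ne'
  · intro i g h hg hh
    exact h1 y (e i) g h (fun h3 => hg (by show f y (e i) g / s y = 0; rw [h3, zero_div]))
      (fun h3 => hh (by show f y (e i) h / s y = 0; rw [h3, zero_div]))
  · refine Continuous.subtype_mk ?_ _
    exact continuous_pi fun i => continuous_pi fun g => (hc _ g).div hsc fun y => (hs y).ne'
  · intro y
    apply Subtype.ext
    funext i g
    show f (τ y) (e i) g / s (τ y) = f y (e i) (g - 1) / s y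
    rw [heq, hsτ]

/-- The inclusion of a smaller join. -/
theorem join_incl {m n : ℕ} (h : m ≤ n) : ∃ F : EZ m p → EZ n p, Continuous F ∧
    ∀ y, F (act y) = act (F y) := by
  classical
  let c : Fin (m + 1) → Fin (n + 1) := fun i => ⟨i, by have := i.2; omega⟩
  refine join_map (Λ := Fin (n + 1)) act n (by simp)
    (fun y i g => if hi : (i : ℕ) < m + 1 then y.1 ⟨i, hi⟩ g else 0) ?_ ?_ ?_ ?_ ?_
  · intro i g
    by_cases hi : (i : ℕ) < m + 1
    · simp only [hi, dite_true]
      exact (continuous_apply_apply _ g).comp continuous_subtype_val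
    · simp only [hi, dite_false]
      exact continuous_const
  · intro y i g
    by_cases hi : (i : ℕ) < m + 1
    · simp only [hi, dite_true]
      exact y.2.1 _ _
    · simp only [hi, dite_false]
      exact le_rfl
  · intro y i g h
    by_cases hi : (i : ℕ) < m + 1
    · simp only [hi, dite_true]
      exact y.2.2.2 _ g h
    · simp only [hi, dite_false]
      intro h3
      exact absurd rfl h3
  · intro y
    by_contra hcon
    push Not at hcon
    have h2 : ∀ (i : Fin (m + 1)) g, y.1 i g = 0 := by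
      intro i g
      have h3 := hcon (c i) g
      have hi : ((c i : Fin (n + 1)) : ℕ) < m + 1 := i.2
      simp only [hi, dite_true] at h3
      exact h3
    have h4 := y.2.2.1
    rw [Finset.sum_eq_zero fun i _ => Finset.sum_eq_zero fun g _ => h2 i g] at h4
    exact zero_ne_one h4
  · intro y i g
    by_cases hi : (i : ℕ) < m + 1
    · simp only [hi, dite_true]
      rfl
    · simp only [hi, dite_false]

/-! ### Labels from a nonconstant periodic sequence -/

/-- the weight of the subset `S`: positive exactly when `u` is larger on `S` than off `S` -/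
noncomputable def wt (u : ZMod p → ℝ) (S : Finset (ZMod p)) : ℝ :=
  ∏ i ∈ S, ∏ j ∈ Sᶜ, max (u i - u j) 0

lemma wt_nonneg (u : ZMod p → ℝ) (S : Finset (ZMod p)) : 0 ≤ wt u S :=
  Finset.prod_nonneg fun _ _ => Finset.prod_nonneg fun _ _ => le_max_right _ _

lemma wt_lt {u : ZMod p → ℝ} {S : Finset (ZMod p)} (h : wt u S ≠ 0) {i j : ZMod p} (hi : i ∈ S)
    (hj : j ∉ S) : u j < u i := by
  by_contra hcon
  push Not at hcon
  apply h
  refine Finset.prod_eq_zero hi (Finset.prod_eq_zero (Finset.mem_compl.2 hj) ?_)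
  exact max_eq_right (by linarith)

lemma wt_unique {u : ZMod p → ℝ} {S S' : Finset (ZMod p)} (h : wt u S ≠ 0) (h' : wt u S' ≠ 0)
    (hcard : S.card = S'.card) : S = S' := by
  by_contra hne
  have h1 : ¬ S ⊆ S' := fun hsub => hne (Finset.eq_of_subset_of_card_le hsub hcard.ge)
  have h2 : ¬ S' ⊆ S := fun hsub => hne (Finset.eq_of_subset_of_card_le hsub hcard.le).symm
  obtain ⟨i, hi, hi'⟩ := Finset.not_subset.1 h1
  obtain ⟨j, hj, hj'⟩ := Finset.not_subset.1 h2
  exact lt_asymm (wt_lt h hi hj') (wt_lt h' hj hi')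

lemma wt_exists {u : ZMod p → ℝ} (h : ∃ i j, u i ≠ u j) :
    ∃ S : Finset (ZMod p), 0 < S.card ∧ S.card < p ∧ wt u S ≠ 0 := by
  classical
  obtain ⟨m, _, hm⟩ := Finset.exists_max_image (Finset.univ : Finset (ZMod p)) u ⟨0, Finset.mem_univ _⟩
  refine ⟨Finset.univ.filter (fun i => u i = u m), ?_, ?_, ?_⟩
  · exact Finset.card_pos.2 ⟨m, by simp⟩
  · have hlt : (Finset.univ.filter (fun i => u i = u m)).card < (Finset.univ : Finset (ZMod p)).card := by
      refine Finset.card_lt_card ?_
      rw [Finset.filter_ssubset]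
      obtain ⟨i, j, hij⟩ := h
      by_contra hcon
      push Not at hcon
      exact hij ((hcon i (Finset.mem_univ _)).trans (hcon j (Finset.mem_univ _)).symm)
    rwa [Finset.card_univ, ZMod.card] at hlt
  · refine Finset.prod_ne_zero_iff.2 fun i hi => Finset.prod_ne_zero_iff.2 fun j hj => ?_
    rw [Finset.mem_filter] at hi
    rw [Finset.mem_compl, Finset.mem_filter, not_and] at hj
    have h1 := hm j (Finset.mem_univ _)
    have h2 := hj (Finset.mem_univ _)
    have h3 : u j < u m := lt_of_le_of_ne h1 h2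
    rw [hi.2]
    exact (lt_max_of_lt_left (by linarith)).ne'

/-- translate of a set -/
def tr (S : Finset (ZMod p)) : Finset (ZMod p) := S.map (Equiv.addRight (1 : ZMod p)).toEmbedding

lemma mem_tr {S : Finset (ZMod p)} {i : ZMod p} : i ∈ tr S ↔ i - 1 ∈ S := by
  unfold tr
  rw [Finset.mem_map_equiv]
  simp [sub_eq_add_neg]

omit [NeZero p] in
lemma card_tr (S : Finset (ZMod p)) : (tr S).card = S.card := Finset.card_map _

lemma tr_compl (S : Finset (ZMod p)) : (tr S)ᶜ = tr Sᶜ := by
  ext i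
  rw [Finset.mem_compl, mem_tr, mem_tr, Finset.mem_compl]

omit [NeZero p] in
lemma prod_tr (S : Finset (ZMod p)) (g : ZMod p → ℝ) : ∏ i ∈ tr S, g i = ∏ i ∈ S, g (i + 1) := by
  unfold tr
  rw [Finset.prod_map]
  rfl

lemma wt_shift (u : ZMod p → ℝ) (S : Finset (ZMod p)) : wt (fun j => u (j + 1)) S = wt u (tr S) := by
  unfold wt
  rw [prod_tr]
  refine Finset.prod_congr rfl fun i _ => ?_
  rw [tr_compl, prod_tr]

/-- the barycentre of a set -/
noncomputable def bary (S : Finset (ZMod p)) : ZMod p := (S.card : ZMod p)⁻¹ * ∑ i ∈ S, i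

lemma bary_tr [Fact p.Prime] (S : Finset (ZMod p)) (h0 : 0 < S.card) (h1 : S.card < p) :
    bary (tr S) = bary S + 1 := by
  have hne : (S.card : ZMod p) ≠ 0 := by
    intro h
    rw [ZMod.natCast_eq_zero_iff] at h
    exact absurd (Nat.le_of_dvd h0 h) (not_le.2 h1)
  unfold bary
  rw [card_tr]
  have h2 : ∑ i ∈ tr S, i = ∑ i ∈ S, i + S.card := by
    unfold tr
    rw [Finset.sum_map]
    simp [Finset.sum_add_distrib]
  rw [h2, mul_add, inv_mul_cancel₀ hne]

/-- the label functions of a periodic sequence -/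
noncomputable def lbl (u : ZMod p → ℝ) (s : Fin (p - 1)) (g : ZMod p) : ℝ :=
  ∑ S : Finset (ZMod p), if S.card = (s : ℕ) + 1 ∧ bary S = -g then wt u S else 0

lemma lbl_nonneg (u : ZMod p → ℝ) (s : Fin (p - 1)) (g : ZMod p) : 0 ≤ lbl u s g := by
  refine Finset.sum_nonneg fun S _ => ?_
  split_ifs
  · exact wt_nonneg u S
  · exact le_rfl

lemma lbl_ne {u : ZMod p → ℝ} {s : Fin (p - 1)} {g : ZMod p} (h : lbl u s g ≠ 0) :
    ∃ S : Finset (ZMod p), S.card = (s : ℕ) + 1 ∧ bary S = -g ∧ wt u S ≠ 0 := by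
  obtain ⟨S, _, hS⟩ := Finset.exists_ne_zero_of_sum_ne_zero h
  split_ifs at hS with hc
  · exact ⟨S, hc.1, hc.2, hS⟩
  · exact absurd rfl hS

lemma lbl_unique {u : ZMod p → ℝ} {s : Fin (p - 1)} {g h : ZMod p} (hg : lbl u s g ≠ 0)
    (hh : lbl u s h ≠ 0) : g = h := by
  obtain ⟨S, hS1, hS2, hS3⟩ := lbl_ne hg
  obtain ⟨S', hS1', hS2', hS3'⟩ := lbl_ne hh
  have := wt_unique hS3 hS3' (hS1.trans hS1'.symm)
  rw [this, hS2'] at hS2
  exact (neg_injective hS2).symm

lemma lbl_pos {u : ZMod p → ℝ} (h : ∃ i j, u i ≠ u j) : ∃ s g, lbl u s g ≠ 0 := by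
  obtain ⟨S, h0, h1, h2⟩ := wt_exists h
  refine ⟨⟨S.card - 1, by omega⟩, -bary S, ?_⟩
  have h3 : 0 < wt u S := lt_of_le_of_ne (wt_nonneg u S) (Ne.symm h2)
  refine (Finset.sum_pos' (fun S' _ => ?_) ⟨S, Finset.mem_univ _, ?_⟩).ne'
  · split_ifs
    · exact wt_nonneg u S'
    · exact le_rfl
  · rw [if_pos ⟨by simp only; omega, by rw [neg_neg]⟩]
    exact h3

lemma lbl_shift [Fact p.Prime] (u : ZMod p → ℝ) (s : Fin (p - 1)) (g : ZMod p) :
    lbl (fun j => u (j + 1)) s g = lbl u s (g - 1) := by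
  classical
  unfold lbl
  refine Finset.sum_bij' (fun S _ => tr S)
    (fun S _ => S.map (Equiv.subRight (1 : ZMod p)).toEmbedding) (fun _ _ => Finset.mem_univ _)
    (fun _ _ => Finset.mem_univ _) ?_ ?_ ?_
  · intro S _
    ext i
    rw [Finset.mem_map_equiv, mem_tr]
    simp [Equiv.subRight]
  · intro S _
    ext i
    rw [mem_tr, Finset.mem_map_equiv]
    simp [Equiv.subRight]
  · intro S _
    rw [wt_shift, card_tr]
    by_cases hc : S.card = (s : ℕ) + 1
    · have h0 : 0 < S.card := by omega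
      have h1 : S.card < p := by have := s.2; omega
      rw [bary_tr S h0 h1]
      have h2 : (bary S = -g) ↔ (bary S + 1 = -(g - 1)) := by
        constructor
        · intro h
          rw [h]
          ring
        · intro h
          have h3 : bary S = -(g - 1) - 1 := by rw [← h]; ring
          rw [h3]
          ring
      simp only [hc, true_and, h2]
    · simp only [hc, false_and, if_false]

lemma continuous_lbl {Y : Type*} [TopologicalSpace Y] {u : Y → ZMod p → ℝ}
    (hu : ∀ j, Continuous fun y => u y j) (s : Fin (p - 1)) (g : ZMod p) :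
    Continuous fun y => lbl (u y) s g := by
  unfold lbl
  refine continuous_finsetSum _ fun S _ => ?_
  split_ifs
  · unfold wt
    exact continuous_finsetProd _ fun i _ => continuous_finsetProd _ fun j _ =>
      ((hu i).sub (hu j)).max continuous_const
  · exact continuous_const

end Pool.Agent.LibZpIndexK
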