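import Pool.Agent.LibZpIndexK.Labels

set_option autoImplicit false
open Topology

namespace Pool.Agent.LibZpIndexK

open Pool.Agent.LibZpIndex

/-! ### Labels from a periodic sequence on the circle with nontrivial steps -/

/-- the turn of a point of the circle, in `(0, 1)` off the point `1` -/
noncomputable def turn (z : Circle) : ℝ := Complex.arg (-(z : ℂ)) / (2 * Real.pi) + 1 / 2

lemma turn_pos (z : Circle) : 0 < turn z := by
  unfold turn
  have h := Complex.neg_pi_lt_arg (-(z : ℂ))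
  have hp := Real.pi_pos
  have h2 : -(1 / 2) < Complex.arg (-(z : ℂ)) / (2 * Real.pi) := by
    rw [lt_div_iff₀ (by positivity)]
    linarith
  linarith

lemma turn_le_one (z : Circle) : turn z ≤ 1 := by
  unfold turn
  have h := Complex.arg_le_pi (-(z : ℂ))
  have hp := Real.pi_pos
  have h2 : Complex.arg (-(z : ℂ)) / (2 * Real.pi) ≤ 1 / 2 := by
    rw [div_le_iff₀ (by positivity)]
    linarith
  linarith

lemma mem_slit {z : Circle} (hz : z ≠ 1) : -(z : ℂ) ∈ Complex.slitPlane := by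
  rw [Complex.mem_slitPlane_iff]
  by_contra hcon
  push Not at hcon
  obtain ⟨hre, him⟩ := hcon
  rw [Complex.neg_re] at hre
  rw [Complex.neg_im, neg_eq_zero] at him
  apply hz
  have h2 : (z : ℂ).re ^ 2 + (z : ℂ).im ^ 2 = 1 := by
    have := Complex.sq_norm (z : ℂ)
    rw [Circle.norm_coe, Complex.normSq_apply] at this
    nlinarith
  rw [him] at h2
  have h3 : (z : ℂ).re = 1 := by nlinarith
  apply Circle.ext
  apply Complex.ext
  · rw [h3]; simp
  · rw [him]; simp

lemma turn_lt_one {z : Circle} (hz : z ≠ 1) : turn z < 1 := by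
  refine lt_of_le_of_ne (turn_le_one z) ?_
  intro h
  have h1 : Complex.arg (-(z : ℂ)) = Real.pi := by
    unfold turn at h
    have hp := Real.pi_pos
    have h2 : Complex.arg (-(z : ℂ)) / (2 * Real.pi) = 1 / 2 := by linarith
    rw [div_eq_iff (by positivity)] at h2
    linarith
  exact (Complex.mem_slitPlane_iff_arg.1 (mem_slit hz)).1 h1

lemma continuousAt_turn {z : Circle} (hz : z ≠ 1) : ContinuousAt turn z := by
  unfold turn
  refine ContinuousAt.add (ContinuousAt.div_const ?_ _) continuousAt_const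
  have h1 : ContinuousAt Complex.arg (-(z : ℂ)) := Complex.continuousAt_arg (mem_slit hz)
  have h2 : ContinuousAt (fun w : Circle => -(w : ℂ)) z :=
    (continuous_subtype_val.neg).continuousAt
  exact ContinuousAt.comp (f := fun w : Circle => -(w : ℂ)) h1 h2

lemma exp_turn (z : Circle) : Circle.exp (2 * Real.pi * turn z) = z := by
  apply Circle.ext
  rw [Circle.coe_exp]
  have hp := Real.pi_pos.ne'
  have h1 : ((2 * Real.pi * turn z : ℝ) : ℂ) * Complex.I =
      (Complex.arg (-(z : ℂ)) : ℂ) * Complex.I + Real.pi * Complex.I := by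
    unfold turn
    push_cast
    have : (Real.pi : ℂ) ≠ 0 := by exact_mod_cast hp
    field_simp
  rw [h1, Complex.exp_add, Complex.exp_pi_mul_I]
  have h2 := Complex.norm_mul_exp_arg_mul_I (-(z : ℂ))
  rw [norm_neg, Circle.norm_coe, Complex.ofReal_one, one_mul] at h2
  rw [h2]
  ring

variable {p : ℕ} [NeZero p]

/-- steps -/
noncomputable def stp (Z : ZMod p → Circle) (j : ZMod p) : Circle := Z (j + 1) / Z j

/-- the weight: positive exactly when all steps are nontrivial -/
noncomputable def wR (Z : ZMod p → Circle) : ℝ := ∏ j, dist (stp Z j) 1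

/-- total number of turns -/
noncomputable def tot (Z : ZMod p → Circle) : ℝ := ∑ j, turn (stp Z j)

/-- weighted sum of the turns -/
noncomputable def psum (Z : ZMod p → Circle) : ℝ :=
  ∑ j ∈ Finset.range p, ((p : ℝ) - 1 - j) * turn (stp Z (j : ZMod p))

lemma pz : (p : ℝ) ≠ 0 := Nat.cast_ne_zero.2 (NeZero.ne p)

/-- `p` times the logarithm -/
noncomputable def Lg (z : Circle) : AddCircle (p : ℝ) :=
  (AddCircle.homeomorphCircle (T := (p : ℝ)) pz).symm z

lemma continuous_Lg : Continuous (Lg : Circle → AddCircle (p : ℝ)) :=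
  (AddCircle.homeomorphCircle (T := (p : ℝ)) pz).symm.continuous

lemma toCircle_Lg (z : Circle) : (Lg z : AddCircle (p : ℝ)).toCircle = z := by
  rw [← AddCircle.homeomorphCircle_apply (T := (p : ℝ)) pz]
  exact (AddCircle.homeomorphCircle (T := (p : ℝ)) pz).apply_symm_apply z

lemma Lg_mul_exp (z : Circle) (t : ℝ) :
    (Lg (Circle.exp (2 * Real.pi * t) * z) : AddCircle (p : ℝ)) = Lg z + ((p * t : ℝ) : AddCircle (p : ℝ)) := by
  apply AddCircle.injective_toCircle (T := (p : ℝ)) pz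
  rw [AddCircle.toCircle_add, toCircle_Lg, toCircle_Lg, AddCircle.toCircle_apply_mk, mul_comm]
  congr 2
  have := pz (p := p)
  field_simp

/-- the phase of the sequence, in `ℝ / p ℤ` -/
noncomputable def Ph (Z : ZMod p → Circle) : AddCircle (p : ℝ) := Lg (Z 0) + ((psum Z : ℝ) : AddCircle (p : ℝ))

lemma psum_shift (Z : ZMod p → Circle) :
    psum (fun j => Z (j + 1)) = psum Z + tot Z - p * turn (stp Z 0) := by
  unfold psum
  set a : ZMod p → ℝ := fun j => turn (stp Z j) with ha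
  have h0 : ∀ j : ℕ, turn (stp (fun j => Z (j + 1)) (j : ZMod p)) = a ((j : ZMod p) + 1) := fun _ => rfl
  simp_rw [h0]
  set f : ℕ → ℝ := fun j => ((p : ℝ) - j) * a (j : ZMod p) with hf
  have h1 : ∑ j ∈ Finset.range p, f (j + 1) = ∑ j ∈ Finset.range p, f j + f p - f 0 := by
    have e1 := Finset.sum_range_succ' f p
    have e2 := Finset.sum_range_succ f p
    linarith
  have h2 : ∑ j ∈ Finset.range p, ((p : ℝ) - 1 - j) * a ((j : ZMod p) + 1) =
      ∑ j ∈ Finset.range p, f (j + 1) := by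
    refine Finset.sum_congr rfl fun j _ => ?_
    rw [hf]
    push_cast
    ring
  have h3 : f p = 0 := by simp [hf]
  have h4 : f 0 = p * a 0 := by simp [hf]
  have h5 : ∑ j ∈ Finset.range p, f j =
      ∑ j ∈ Finset.range p, ((p : ℝ) - 1 - j) * a (j : ZMod p) + tot Z := by
    unfold tot
    rw [← sum_range_zmod (fun j => turn (stp Z j)), ← Finset.sum_add_distrib]
    refine Finset.sum_congr rfl fun j _ => ?_
    rw [hf]
    ring
  rw [h2, h1, h3, h4, h5]
  ring

lemma Ph_shift (Z : ZMod p → Circle) :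
    Ph (fun j => Z (j + 1)) = Ph Z + ((tot Z : ℝ) : AddCircle (p : ℝ)) := by
  unfold Ph
  rw [psum_shift]
  have h1 : Z (0 + 1) = Circle.exp (2 * Real.pi * turn (stp Z 0)) * Z 0 := by
    rw [exp_turn]
    unfold stp
    rw [div_mul_cancel]
  have h2 : (Lg (Z (0 + 1)) : AddCircle (p : ℝ)) =
      Lg (Z 0) + ((p * turn (stp Z 0) : ℝ) : AddCircle (p : ℝ)) := by
    rw [h1, Lg_mul_exp]
  rw [h2, AddCircle.coe_sub, AddCircle.coe_add]
  abel

lemma wR_nonneg (Z : ZMod p → Circle) : 0 ≤ wR Z := Finset.prod_nonneg fun _ _ => dist_nonneg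

lemma wR_ne {Z : ZMod p → Circle} : wR Z ≠ 0 ↔ ∀ j, stp Z j ≠ 1 := by
  unfold wR
  rw [Finset.prod_ne_zero_iff]
  simp only [Finset.mem_univ, true_implies, ne_eq, dist_eq_zero]

lemma wR_shift (Z : ZMod p → Circle) : wR (fun j => Z (j + 1)) = wR Z :=
  Equiv.prod_comp (Equiv.addRight (1 : ZMod p)) (fun j => dist (stp Z j) 1)

lemma tot_shift (Z : ZMod p → Circle) : tot (fun j => Z (j + 1)) = tot Z :=
  Equiv.sum_comp (Equiv.addRight (1 : ZMod p)) (fun j => turn (stp Z j))

lemma tot_int (Z : ZMod p → Circle) : ∃ m : ℤ, tot Z = m := by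
  have h1 : Circle.exp (2 * Real.pi * tot Z) = 1 := by
    unfold tot
    rw [Finset.mul_sum]
    have h2 : ∀ s : Finset (ZMod p), Circle.exp (∑ j ∈ s, 2 * Real.pi * turn (stp Z j)) =
        ∏ j ∈ s, stp Z j := by
      intro s
      classical
      induction s using Finset.induction_on with
      | empty => simp
      | insert j s hj ih => rw [Finset.sum_insert hj, Finset.prod_insert hj, Circle.exp_add, ih, exp_turn]
    rw [h2]
    unfold stp
    rw [Finset.prod_div_distrib]
    have h3 : ∏ j : ZMod p, Z (j + 1) = ∏ j : ZMod p, Z j :=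
      Equiv.prod_comp (Equiv.addRight (1 : ZMod p)) Z
    rw [h3]
    exact div_self' _
  rw [Circle.exp_eq_one] at h1
  obtain ⟨m, hm⟩ := h1
  refine ⟨m, ?_⟩
  have hp := Real.pi_pos
  have h3 : 2 * Real.pi * tot Z = 2 * Real.pi * m := by rw [hm]; ring
  exact mul_left_cancel₀ (by positivity) h3

lemma tot_pos (Z : ZMod p → Circle) : 0 < tot Z :=
  Finset.sum_pos (fun j _ => turn_pos _) ⟨0, Finset.mem_univ _⟩

lemma tot_lt {Z : ZMod p → Circle} (h : wR Z ≠ 0) : tot Z < p := by
  unfold tot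
  have h1 : ∑ j : ZMod p, turn (stp Z j) < ∑ _j : ZMod p, (1 : ℝ) :=
    Finset.sum_lt_sum_of_nonempty ⟨0, Finset.mem_univ _⟩ fun j _ => turn_lt_one (wR_ne.1 h j)
  simpa [ZMod.card] using h1

lemma coe_int_eq_zero {m : ℤ} (h : ‖((m : ℝ) : AddCircle (p : ℝ))‖ < 1) : (p : ℤ) ∣ m := by
  rw [AddCircle.norm_eq] at h
  have h1 : |(m - round ((p : ℝ)⁻¹ * m) * p : ℤ)| < 1 := by
    have : ((|(m - round ((p : ℝ)⁻¹ * m) * p : ℤ)| : ℤ) : ℝ) < 1 := by
      push_cast
      exact h
    exact_mod_cast this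
  rw [Int.abs_lt_one_iff, sub_eq_zero] at h1
  rw [h1]
  exact dvd_mul_left _ _

lemma coe_p_mul (m : ℤ) : (((p : ℝ) * m : ℝ) : AddCircle (p : ℝ)) = 0 := by
  rw [AddCircle.coe_eq_zero_iff]
  exact ⟨m, by rw [zsmul_eq_mul, mul_comm]⟩

/-- the label functions -/
noncomputable def rl (Z : ZMod p → Circle) (e : Bool) (g : ZMod p) : ℝ :=
  wR Z * max 0 (1 / 2 - ‖Ph Z - ((tot Z * (g.val : ℝ) + (if e then 1 / 2 else 0) : ℝ) : AddCircle (p : ℝ))‖)

lemma rl_nonneg (Z : ZMod p → Circle) (e : Bool) (g : ZMod p) : 0 ≤ rl Z e g :=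
  mul_nonneg (wR_nonneg Z) (le_max_left _ _)

lemma rl_ne {Z : ZMod p → Circle} {e : Bool} {g : ZMod p} (h : rl Z e g ≠ 0) :
    wR Z ≠ 0 ∧ ‖Ph Z - ((tot Z * (g.val : ℝ) + (if e then 1 / 2 else 0) : ℝ) : AddCircle (p : ℝ))‖ < 1 / 2 := by
  refine ⟨left_ne_zero_of_mul h, ?_⟩
  by_contra hcon
  apply right_ne_zero_of_mul h
  exact max_eq_left (by linarith [not_lt.1 hcon])

lemma rl_unique [Fact p.Prime] {Z : ZMod p → Circle} {e : Bool} {g h : ZMod p} (hg : rl Z e g ≠ 0)
    (hh : rl Z e h ≠ 0) : g = h := by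
  obtain ⟨hw, h1⟩ := rl_ne hg
  obtain ⟨_, h2⟩ := rl_ne hh
  obtain ⟨m, hm⟩ := tot_int Z
  have hm0 : 0 < m := by
    have := tot_pos Z
    rw [hm] at this
    exact_mod_cast this
  have hmp : m < p := by
    have := tot_lt hw
    rw [hm] at this
    exact_mod_cast this
  have h3 : ‖(((m * ((h.val : ℤ) - (g.val : ℤ)) : ℤ) : ℝ) : AddCircle (p : ℝ))‖ < 1 := by
    have h4 : (((m * ((h.val : ℤ) - (g.val : ℤ)) : ℤ) : ℝ) : AddCircle (p : ℝ)) =
        (Ph Z - ((tot Z * (g.val : ℝ) + (if e then 1 / 2 else 0) : ℝ) : AddCircle (p : ℝ))) -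
        (Ph Z - ((tot Z * (h.val : ℝ) + (if e then 1 / 2 else 0) : ℝ) : AddCircle (p : ℝ))) := by
      rw [sub_sub_sub_cancel_left, ← AddCircle.coe_sub, hm]
      congr 1
      push_cast
      ring
    rw [h4]
    refine (norm_sub_le _ _).trans_lt ?_
    linarith
  have h5 := coe_int_eq_zero h3
  have hpp : Prime (p : ℤ) := Nat.prime_iff_prime_int.1 Fact.out
  rcases hpp.dvd_or_dvd h5 with h6 | h6
  · exact absurd (Int.le_of_dvd hm0 h6) (not_le.2 hmp)
  · have h7 : ((h.val : ℤ) : ZMod p) = ((g.val : ℤ) : ZMod p) := by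
      rw [ZMod.intCast_eq_intCast_iff_dvd_sub]
      have := (dvd_neg.2 h6)
      rwa [neg_sub] at this
    rw [Int.cast_natCast, Int.cast_natCast, ZMod.natCast_zmod_val, ZMod.natCast_zmod_val] at h7
    exact h7.symm

lemma rl_shift (Z : ZMod p → Circle) (e : Bool) (g : ZMod p) :
    rl (fun j => Z (j + 1)) e g = rl Z e (g - 1) := by
  unfold rl
  rw [wR_shift, Ph_shift, tot_shift]
  obtain ⟨m, hm⟩ := tot_int Z
  have h1 : (p : ℤ) ∣ ((g - 1).val : ℤ) - ((g.val : ℤ) - 1) := by
    rw [← ZMod.intCast_zmod_eq_zero_iff_dvd]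
    push_cast
    rw [ZMod.natCast_zmod_val, ZMod.natCast_zmod_val]
    ring
  obtain ⟨c, hc⟩ := h1
  have h2 : (((g - 1).val : ℕ) : ℝ) = (g.val : ℝ) - 1 + p * c := by
    have : (((g - 1).val : ℤ) : ℝ) = (((g.val : ℤ) - 1 + p * c : ℤ) : ℝ) := by
      rw [← hc]
      congr 1
      ring
    push_cast at this
    exact this
  have h3 : ((tot Z * (((g - 1).val : ℕ) : ℝ) + (if e then 1 / 2 else 0) : ℝ) : AddCircle (p : ℝ)) =
      ((tot Z * (g.val : ℝ) + (if e then 1 / 2 else 0) : ℝ) : AddCircle (p : ℝ)) -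
        ((tot Z : ℝ) : AddCircle (p : ℝ)) := by
    rw [h2]
    have h4 : tot Z * ((g.val : ℝ) - 1 + p * c) + (if e then 1 / 2 else 0) =
        (tot Z * (g.val : ℝ) + (if e then 1 / 2 else 0)) - tot Z + (p : ℝ) * ((m * c : ℤ) : ℝ) := by
      rw [hm]
      push_cast
      ring
    rw [h4, AddCircle.coe_add, coe_p_mul, add_zero, AddCircle.coe_sub]
  rw [h3]
  congr 4
  abel

lemma rl_pos [Fact p.Prime] {Z : ZMod p → Circle} (h : ∀ j, stp Z j ≠ 1) :
    ∃ e g, rl Z e g ≠ 0 := by
  have hw : wR Z ≠ 0 := wR_ne.2 h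
  obtain ⟨m, hm⟩ := tot_int Z
  have hm0 : 0 < m := by
    have := tot_pos Z
    rw [hm] at this
    exact_mod_cast this
  have hmp : m < p := by
    have := tot_lt hw
    rw [hm] at this
    exact_mod_cast this
  obtain ⟨t, ht⟩ : ∃ t : ℝ, (t : AddCircle (p : ℝ)) = Ph Z := QuotientAddGroup.mk_surjective (Ph Z)
  have hmz : ((m : ℤ) : ZMod p) ≠ 0 := by
    intro h0
    rw [ZMod.intCast_zmod_eq_zero_iff_dvd] at h0
    exact absurd (Int.le_of_dvd hm0 h0) (not_le.2 hmp)
  -- the residue with `m g = ⌊t⌋`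
  set n : ℤ := ⌊t⌋ with hn
  set g : ZMod p := ((m : ℤ) : ZMod p)⁻¹ * (n : ZMod p) with hg
  have h1 : (p : ℤ) ∣ m * (g.val : ℤ) - n := by
    rw [← ZMod.intCast_zmod_eq_zero_iff_dvd]
    push_cast
    rw [ZMod.natCast_zmod_val, hg, ← mul_assoc, mul_inv_cancel₀ hmz, one_mul, sub_self]
  obtain ⟨c, hc⟩ := h1
  have h2 : (m : ℝ) * (g.val : ℝ) = n + p * c := by
    have : ((m * (g.val : ℤ) : ℤ) : ℝ) = ((n + p * c : ℤ) : ℝ) := by
      rw [← hc]
      congr 1
      ring
    push_cast at this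
    exact this
  have hkey : ∀ e : Bool, Ph Z - ((tot Z * (g.val : ℝ) + (if e then 1 / 2 else 0) : ℝ) : AddCircle (p : ℝ)) =
      ((t - n - (if e then 1 / 2 else 0) : ℝ) : AddCircle (p : ℝ)) := by
    intro e
    rw [← ht, hm, h2, ← AddCircle.coe_sub]
    have h4 : t - (↑n + ↑p * ↑c + (if e then 1 / 2 else 0)) =
        (t - n - (if e then 1 / 2 else 0)) + (p : ℝ) * ((-c : ℤ) : ℝ) := by
      push_cast
      ring
    rw [h4, AddCircle.coe_add, coe_p_mul, add_zero]
  have hfl := Int.floor_le t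
  have hfl2 := Int.lt_floor_add_one t
  have hfin : ∀ e : Bool, |t - n - (if e then 1 / 2 else 0)| < 1 / 2 → rl Z e g ≠ 0 := by
    intro e he
    unfold rl
    rw [hkey e]
    refine mul_ne_zero hw ?_
    have h5 : ‖((t - n - (if e then 1 / 2 else 0) : ℝ) : AddCircle (p : ℝ))‖ < 1 / 2 := by
      refine lt_of_le_of_lt ?_ he
      exact QuotientAddGroup.norm_mk_le_norm
    exact (lt_max_of_lt_right (by linarith)).ne'
  by_cases hlt : t - n < 1 / 2
  · refine ⟨false, g, hfin false ?_⟩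
    simp only [Bool.false_eq_true, if_false, sub_zero]
    rw [abs_lt]
    constructor <;> linarith
  · refine ⟨true, g, hfin true ?_⟩
    push Not at hlt
    simp only [if_true]
    rw [abs_lt]
    constructor <;> linarith

lemma continuous_rl {Y : Type*} [TopologicalSpace Y] {Z : Y → ZMod p → Circle}
    (hZ : ∀ j, Continuous fun y => Z y j) (e : Bool) (g : ZMod p) :
    Continuous fun y => rl (Z y) e g := by
  have hst : ∀ j, Continuous fun y => stp (Z y) j := fun j => (hZ (j + 1)).div' (hZ j)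
  have hwc : Continuous fun y => wR (Z y) :=
    continuous_finsetProd _ fun j _ => (hst j).dist continuous_const
  rw [continuous_iff_continuousAt]
  intro y
  by_cases hw : wR (Z y) = 0
  · have h0 : rl (Z y) e g = 0 := by unfold rl; rw [hw, zero_mul]
    show Filter.Tendsto (fun y => rl (Z y) e g) (𝓝 y) (𝓝 (rl (Z y) e g))
    rw [h0]
    have hlim : Filter.Tendsto (fun y => wR (Z y)) (𝓝 y) (𝓝 0) := by
      have h1 : Filter.Tendsto (fun y => wR (Z y)) (𝓝 y) (𝓝 (wR (Z y))) := hwc.continuousAt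
      rwa [hw] at h1
    refine tendsto_of_tendsto_of_tendsto_of_le_of_le tendsto_const_nhds hlim
      (fun y => rl_nonneg _ _ _) fun y => ?_
    unfold rl
    have h1 : max 0 (1 / 2 - ‖Ph (Z y) - ((tot (Z y) * (g.val : ℝ) + (if e then 1 / 2 else 0) : ℝ) : AddCircle (p : ℝ))‖) ≤ 1 := by
      apply max_le zero_le_one
      linarith [norm_nonneg (Ph (Z y) - ((tot (Z y) * (g.val : ℝ) + (if e then 1 / 2 else 0) : ℝ) : AddCircle (p : ℝ)))]
    calc wR (Z y) * _ ≤ wR (Z y) * 1 := mul_le_mul_of_nonneg_left h1 (wR_nonneg _)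
      _ = wR (Z y) := mul_one _
  · have hne := wR_ne.1 hw
    have hturn : ∀ j, ContinuousAt (fun y => turn (stp (Z y) j)) y := fun j =>
      ContinuousAt.comp (f := fun y => stp (Z y) j) (continuousAt_turn (hne j)) (hst j).continuousAt
    have htot : ContinuousAt (fun y => tot (Z y)) y := by
      unfold tot
      exact tendsto_finsetSum _ fun j _ => hturn j
    have hps : ContinuousAt (fun y => psum (Z y)) y := by
      unfold psum
      exact tendsto_finsetSum _ fun j _ => (hturn _).const_mul _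
    have hcoe : Continuous fun x : ℝ => (x : AddCircle (p : ℝ)) := AddCircle.continuous_mk' _
    have hPh : ContinuousAt (fun y => Ph (Z y)) y := by
      unfold Ph
      exact (continuous_Lg.comp (hZ 0)).continuousAt.add (ContinuousAt.comp hcoe.continuousAt hps)
    unfold rl
    refine hwc.continuousAt.mul ?_
    refine Filter.Tendsto.max tendsto_const_nhds ?_
    refine continuousAt_const.sub ?_
    refine ContinuousAt.norm ?_
    refine hPh.sub ?_
    exact ContinuousAt.comp (f := fun y => tot (Z y) * (g.val : ℝ) + (if e then 1 / 2 else 0))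
      hcoe.continuousAt ((htot.mul_const _).add continuousAt_const)

end Pool.Agent.LibZpIndexK
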