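import Pool.Agent.LibZpIndexK.Basic

set_option autoImplicit false
open Topology

namespace Pool.Agent.LibZpIndexK

open Pool.Agent.LibZpIndex

/-- bi-infinite sequences in the torus of dimension `k + 1` whose consecutive terms have distance
at least one -/
abbrev Xk (k : ℕ) : Type :=
  {x : ℤ → Circle × (Fin k → Circle) // ∀ n, 1 ≤ dist (x n) (x (n + 1))}

variable {k : ℕ}

instance : CompactSpace (Xk k) := by
  have hclosed : IsClosed {x : ℤ → Circle × (Fin k → Circle) | ∀ n, 1 ≤ dist (x n) (x (n + 1))} := by
    rw [Set.ofPred_forall]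
    refine isClosed_iInter fun n => ?_
    exact isClosed_le continuous_const ((continuous_apply n).dist (continuous_apply (n + 1)))
  exact isCompact_iff_compactSpace.1 hclosed.isCompact

instance : SecondCountableTopology (Xk k) :=
  inferInstanceAs (SecondCountableTopology
    ({x : ℤ → Circle × (Fin k → Circle) | ∀ n, 1 ≤ dist (x n) (x (n + 1))} :
      Set (ℤ → Circle × (Fin k → Circle))))

instance : TopologicalSpace.MetrizableSpace (Xk k) :=
  TopologicalSpace.metrizableSpace_of_t3_secondCountable _

/-- the shift -/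
def shiftK : Xk k ≃ₜ Xk k where
  toFun x := ⟨fun n => x.1 (n + 1), fun n => x.2 (n + 1)⟩
  invFun x := ⟨fun n => x.1 (n - 1), fun n => by
    have := x.2 (n - 1)
    rwa [show n - 1 + 1 = n + 1 - 1 by ring] at this⟩
  left_inv x := by
    apply Subtype.ext
    funext n
    simp
  right_inv x := by
    apply Subtype.ext
    funext n
    simp
  continuous_toFun := by
    refine Continuous.subtype_mk ?_ _
    exact continuous_pi fun n => (continuous_apply (n + 1)).comp continuous_subtype_val
  continuous_invFun := by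
    refine Continuous.subtype_mk ?_ _
    exact continuous_pi fun n => (continuous_apply (n - 1)).comp continuous_subtype_val

lemma shift_ne (x : Xk k) : shiftK x ≠ x := by
  intro h
  have h1 := x.2 0
  have h2 : x.1 (0 + 1) = x.1 0 := congrFun (congrArg Subtype.val h) 0
  rw [h2, dist_self] at h1
  linarith

lemma shift_iterate (x : Xk k) (m : ℕ) (n : ℤ) :
    ((shiftK : Xk k → Xk k)^[m] x).1 n = x.1 (n + m) := by
  induction m generalizing n with
  | zero => simp
  | succ m ih =>
    rw [Function.iterate_succ_apply']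
    show ((shiftK : Xk k → Xk k)^[m] x).1 (n + 1) = _
    rw [ih, show n + 1 + (m : ℤ) = n + ((m + 1 : ℕ) : ℤ) by push_cast; ring]

variable {n p : ℕ} [NeZero p]

/-- the sequence in `ℝ^k` attached to a point of the join; the factor `i` of the join belongs to
the coordinate `i / (p - 1)` -/
def useq (x : EZ n p) : ZMod p → Fin k → ℝ := fun j b =>
  ∑ i : Fin (n + 1), if (i : ℕ) / (p - 1) = (b : ℕ) then x.1 i (-j) else 0

lemma useq_trans (a : ZMod p) (x : EZ n p) (j : ZMod p) :
    (useq (trans a x) : ZMod p → Fin k → ℝ) j = useq x (j + a) := by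
  funext b
  unfold useq
  refine Finset.sum_congr rfl fun i _ => ?_
  show (if (i : ℕ) / (p - 1) = (b : ℕ) then x.1 i (-j - a) else 0) =
    if (i : ℕ) / (p - 1) = (b : ℕ) then x.1 i (-(j + a)) else 0
  rw [show -j - a = -(j + a) by ring]

lemma useq_sum (hn : n + 1 ≤ k * (p - 1)) (x : EZ n p) :
    ∑ j, ∑ b, (useq x : ZMod p → Fin k → ℝ) j b = 1 := by
  have hp1 : 0 < p - 1 := by
    by_contra hcon
    have h0 : p - 1 = 0 := by omega
    rw [h0, mul_zero] at hn
    omega
  have h1 : ∀ j : ZMod p, ∑ b, (useq x : ZMod p → Fin k → ℝ) j b = ∑ i, x.1 i (-j) := by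
    intro j
    unfold useq
    rw [Finset.sum_comm]
    refine Finset.sum_congr rfl fun i _ => ?_
    have hb : (i : ℕ) / (p - 1) < k := by
      rw [Nat.div_lt_iff_lt_mul hp1]
      have := i.2
      omega
    rw [Finset.sum_eq_single (⟨(i : ℕ) / (p - 1), hb⟩ : Fin k)]
    · simp
    · intro b _ hne
      rw [if_neg]
      intro h
      apply hne
      exact Fin.ext h.symm
    · intro h
      exact absurd (Finset.mem_univ _) h
  rw [Finset.sum_congr rfl fun j _ => h1 j, Finset.sum_comm]
  refine Eq.trans ?_ x.2.2.1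
  refine Finset.sum_congr rfl fun i _ => ?_
  exact Equiv.sum_comp (Equiv.neg (ZMod p)) (x.1 i)

lemma useq_support (x : EZ n p) (b : Fin k) (hp1 : 0 < p - 1) :
    (Finset.univ.filter (fun j => (useq x : ZMod p → Fin k → ℝ) j b ≠ 0)).card ≤ p - 1 := by
  classical
  set s : Finset (Fin (n + 1)) := Finset.univ.filter (fun i => (i : ℕ) / (p - 1) = (b : ℕ)) with hs
  have h1 : (Finset.univ.filter (fun j => (useq x : ZMod p → Fin k → ℝ) j b ≠ 0)) ⊆
      s.biUnion (fun i => Finset.univ.filter (fun j => x.1 i (-j) ≠ 0)) := by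
    intro j hj
    rw [Finset.mem_filter] at hj
    obtain ⟨i, _, hi⟩ := Finset.exists_ne_zero_of_sum_ne_zero hj.2
    split_ifs at hi with hb
    · exact Finset.mem_biUnion.2 ⟨i, Finset.mem_filter.2 ⟨Finset.mem_univ _, hb⟩,
        Finset.mem_filter.2 ⟨Finset.mem_univ _, hi⟩⟩
    · exact absurd rfl hi
  have hcard : s.card ≤ p - 1 := by
    have h2 : (s.map Fin.valEmbedding) ⊆ Finset.Ico ((b : ℕ) * (p - 1)) ((b : ℕ) * (p - 1) + (p - 1)) := by
      intro m hm
      rw [Finset.mem_map] at hm
      obtain ⟨i, hi, rfl⟩ := hm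
      rw [hs, Finset.mem_filter] at hi
      have h3 := hi.2
      rw [Nat.div_eq_iff hp1] at h3
      rw [Finset.mem_Ico]
      change (b : ℕ) * (p - 1) ≤ (i : ℕ) ∧ (i : ℕ) < (b : ℕ) * (p - 1) + (p - 1)
      constructor
      · exact h3.1
      · have := h3.2
        omega
    have h4 := Finset.card_le_card h2
    rw [Finset.card_map, Nat.card_Ico] at h4
    omega
  refine (Finset.card_le_card h1).trans ?_
  refine (Finset.card_biUnion_le_card_mul _ _ 1 fun i _ => ?_).trans ?_
  · rw [Finset.card_le_one]
    intro a ha c hc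
    rw [Finset.mem_filter] at ha hc
    have := x.2.2.2 i _ _ ha.2 hc.2
    exact neg_injective this
  · rw [mul_one]
    exact hcard

lemma jump_useq_pos (hn : n + 1 ≤ k * (p - 1)) (x : EZ n p) :
    0 < jump (useq x : ZMod p → Fin k → ℝ) := by
  classical
  have hp1 : 0 < p - 1 := by
    by_contra hcon
    have h0 : p - 1 = 0 := by omega
    rw [h0, mul_zero] at hn
    omega
  rcases (norm_nonneg (fun j : ZMod p => (useq x : ZMod p → Fin k → ℝ) (j + 1) - useq x j)).lt_or_eq
    with h | h
  · exact h
  · exfalso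
    have h0 : (fun j : ZMod p => (useq x : ZMod p → Fin k → ℝ) (j + 1) - useq x j) = 0 :=
      norm_eq_zero.1 h.symm
    have h1 : ∀ j : ZMod p, (useq x : ZMod p → Fin k → ℝ) (j + 1) = useq x j := fun j => by
      have := congrFun h0 j
      exact sub_eq_zero.1 this
    have h2 : ∀ j : ℕ, (useq x : ZMod p → Fin k → ℝ) ((j : ZMod p)) = useq x 0 := by
      intro j
      induction j with
      | zero => simp
      | succ j ih => rw [Nat.cast_succ, h1, ih]
    have h3 : ∀ z : ZMod p, (useq x : ZMod p → Fin k → ℝ) z = useq x 0 := fun z => by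
      have := h2 z.val
      rwa [ZMod.natCast_zmod_val] at this
    have h6 := useq_sum hn x
    obtain ⟨j, _, hj⟩ := Finset.exists_ne_zero_of_sum_ne_zero (by rw [h6]; exact one_ne_zero)
    obtain ⟨b, _, hb⟩ := Finset.exists_ne_zero_of_sum_ne_zero hj
    have h7 : (Finset.univ.filter (fun j => (useq x : ZMod p → Fin k → ℝ) j b ≠ 0)) =
        Finset.univ := by
      rw [Finset.filter_true_of_mem]
      intro z _
      rw [h3 z, ← h3 j]
      exact hb
    have h8 := useq_support x b hp1
    rw [h7, Finset.card_univ, ZMod.card] at h8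
    omega

/-- the orbit map -/
noncomputable def toXk (hn : n + 1 ≤ k * (p - 1)) (x : EZ n p) : Xk k :=
  ⟨fun m => tor (useq (trans (m : ZMod p) x)), fun m => by
    have h := tor_sep (jump_useq_pos hn (trans (m : ZMod p) x))
    rw [dist_comm] at h
    have h2 : (fun j => (useq (trans (m : ZMod p) x) : ZMod p → Fin k → ℝ) (j + 1)) =
        useq (trans ((m + 1 : ℤ) : ZMod p) x) := by
      funext j
      rw [useq_trans, useq_trans]
      congr 1
      push_cast
      ring
    rw [h2] at h
    exact h⟩

lemma continuous_toXk (hn : n + 1 ≤ k * (p - 1)) : Continuous (toXk hn : EZ n p → Xk k) := by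
  refine Continuous.subtype_mk ?_ _
  refine continuous_pi fun m => ?_
  have hu : Continuous (useq : EZ n p → ZMod p → Fin k → ℝ) := by
    unfold useq
    refine continuous_pi fun j => continuous_pi fun b => continuous_finsetSum _ fun i _ => ?_
    split_ifs
    · exact (continuous_apply_apply i (-j)).comp continuous_subtype_val
    · exact continuous_const
  exact continuous_tor (hu.comp (continuous_trans (m : ZMod p)))
    (fun x => jump_useq_pos hn (trans (m : ZMod p) x))

lemma toXk_act (hn : n + 1 ≤ k * (p - 1)) (x : EZ n p) :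
    toXk hn (act x) = shiftK (toXk hn x) := by
  apply Subtype.ext
  funext m
  show tor (useq (trans (m : ZMod p) (trans 1 x))) = tor (useq (trans ((m + 1 : ℤ) : ZMod p) x))
  rw [trans_trans]
  congr 3
  push_cast
  ring

lemma toXk_periodic (hn : n + 1 ≤ k * (p - 1)) (x : EZ n p) :
    (shiftK : Xk k → Xk k)^[p] (toXk hn x) = toXk hn x := by
  apply Subtype.ext
  funext m
  rw [shift_iterate]
  show tor (useq (trans ((m + (p : ℤ) : ℤ) : ZMod p) x)) = tor (useq (trans (m : ZMod p) x))
  congr 3
  push_cast
  simp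

end Pool.Agent.LibZpIndexK
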