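import Pool.Agent.LibZpIndexK.Rot
import Pool.Agent.LibZpIndexK.System
import Pool.Agent.LibZpIndex.Dold

set_option autoImplicit false
open Topology

namespace Pool.Agent.LibZpIndexK

open Pool.Agent.LibZpIndex

variable {k p : ℕ} [NeZero p]

/-- the space of `p`-periodic points -/
abbrev Per (k p : ℕ) : Type := {x : Xk k // (shiftK : Xk k → Xk k)^[p] x = x}

/-- the generator on the `p`-periodic points -/
noncomputable def tau (y : Per k p) : Per k p := ⟨shiftK y.1, by
  rw [← Function.iterate_succ_apply, Function.iterate_succ_apply', y.2]⟩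

/-- coordinates of the torus -/
noncomputable def co (c : Option (Fin k)) (a : Circle × (Fin k → Circle)) : Circle :=
  match c with
  | none => a.1
  | some b => a.2 b

lemma continuous_co (c : Option (Fin k)) : Continuous (co c) := by
  cases c with
  | none => exact continuous_fst
  | some b => exact (continuous_apply b).comp continuous_snd

/-- the coordinate sequences -/
noncomputable def Zc (y : Per k p) (c : Option (Fin k)) (j : ZMod p) : Circle := co c (y.1.1 (j.val : ℤ))

lemma per_val (y : Per k p) (n : ℤ) : y.1.1 ((((n : ZMod p)).val : ℕ) : ℤ) = y.1.1 n := by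
  have hper : Function.Periodic y.1.1 (p : ℤ) := by
    intro m
    have h1 := shift_iterate y.1 p m
    rw [y.2] at h1
    exact h1.symm
  have h1 : (p : ℤ) ∣ (((n : ZMod p)).val : ℤ) - n := by
    rw [← ZMod.intCast_zmod_eq_zero_iff_dvd]
    push_cast
    rw [ZMod.natCast_zmod_val, sub_self]
  obtain ⟨c, hc⟩ := h1
  have h2 : (((n : ZMod p)).val : ℤ) = n + c * (p : ℤ) := by rw [mul_comm, ← hc]; ring
  rw [h2]
  exact hper.int_mul c n

lemma Zc_tau (y : Per k p) (c : Option (Fin k)) : Zc (tau y) c = fun j => Zc y c (j + 1) := by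
  funext j
  have h1 := per_val y ((j.val : ℤ) + 1)
  have h2 : (((j.val : ℤ) + 1 : ℤ) : ZMod p) = j + 1 := by
    push_cast
    rw [ZMod.natCast_zmod_val]
  rw [h2] at h1
  show co c (y.1.1 ((j.val : ℤ) + 1)) = co c (y.1.1 ((j + 1).val : ℤ))
  rw [h1]

lemma continuous_Zc (c : Option (Fin k)) (j : ZMod p) : Continuous fun y : Per k p => Zc y c j := by
  unfold Zc
  exact (continuous_co c).comp ((continuous_apply _).comp
    (continuous_subtype_val.comp continuous_subtype_val))

/-- real parts of the steps -/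
noncomputable def us (y : Per k p) (b : Fin k) (j : ZMod p) : ℝ :=
  ((stp (Zc y (some b)) j : Circle) : ℂ).re

lemma continuous_us (b : Fin k) (j : ZMod p) : Continuous fun y : Per k p => us y b j := by
  unfold us stp
  exact Complex.continuous_re.comp (continuous_subtype_val.comp
    ((continuous_Zc _ _).div' (continuous_Zc _ _)))

lemma us_tau (y : Per k p) (b : Fin k) : us (tau y) b = fun j => us y b (j + 1) := by
  funext j
  unfold us
  rw [Zc_tau]
  rfl

omit [NeZero p] in
lemma eq_one_of_re {z : Circle} (h : (z : ℂ).re = 1) : z = 1 := by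
  have h2 : (z : ℂ).re ^ 2 + (z : ℂ).im ^ 2 = 1 := by
    have := Complex.sq_norm (z : ℂ)
    rw [Circle.norm_coe, Complex.normSq_apply] at this
    nlinarith
  have h3 : (z : ℂ).im = 0 := by
    rw [h] at h2
    nlinarith
  apply Circle.ext
  apply Complex.ext
  · rw [h]; simp
  · rw [h3]; simp

/-- The `p`-periodic points map equivariantly to `E_n`, `n = k (p + 1) + 1`. -/
theorem upper [Fact p.Prime] (k : ℕ) : ∃ F : Per k p → EZ (k * (p + 1) + 1) p, Continuous F ∧
    ∀ y, F (tau y) = act (F y) := by
  classical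
  refine join_map (Λ := (Fin k × Fin (p - 1)) ⊕ (Option (Fin k) × Bool)) tau _ ?_
    (fun y l g => Sum.elim (fun bs => lbl (us y bs.1) bs.2 g) (fun ce => rl (Zc y ce.1) ce.2 g) l)
    ?_ ?_ ?_ ?_ ?_
  · rw [Fintype.card_sum, Fintype.card_prod, Fintype.card_prod, Fintype.card_fin, Fintype.card_fin,
      Fintype.card_option, Fintype.card_fin, Fintype.card_bool]
    obtain ⟨q, hq⟩ : ∃ q, p = q + 1 := Nat.exists_eq_succ_of_ne_zero (NeZero.ne p)
    rw [hq, Nat.add_sub_cancel]
    ring
  · rintro (⟨b, s⟩ | ⟨c, e⟩) g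
    · exact continuous_lbl (fun j => continuous_us b j) s g
    · exact continuous_rl (fun j => continuous_Zc c j) e g
  · rintro y (⟨b, s⟩ | ⟨c, e⟩) g
    · exact lbl_nonneg _ _ _
    · exact rl_nonneg _ _ _
  · rintro y (⟨b, s⟩ | ⟨c, e⟩) g h hg hh
    · exact lbl_unique hg hh
    · exact rl_unique hg hh
  · intro y
    by_cases h1 : ∃ b i j, us y b i ≠ us y b j
    · obtain ⟨b, h2⟩ := h1
      obtain ⟨s, g, hsg⟩ := lbl_pos h2
      exact ⟨Sum.inl (b, s), g, hsg⟩
    push Not at h1
    by_cases h2 : ∃ b, us y b 0 ≠ 1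
    · obtain ⟨b, hb⟩ := h2
      have h3 : ∀ j, stp (Zc y (some b)) j ≠ 1 := by
        intro j hj
        apply hb
        rw [h1 b 0 j]
        unfold us
        rw [hj]
        simp
      obtain ⟨e, g, heg⟩ := rl_pos h3
      exact ⟨Sum.inr (some b, e), g, heg⟩
    push Not at h2
    have h3 : ∀ j, stp (Zc y none) j ≠ 1 := by
      intro j hj
      have h4 := y.1.2 (j.val : ℤ)
      have h5 := per_val y ((j.val : ℤ) + 1)
      have h6 : (((j.val : ℤ) + 1 : ℤ) : ZMod p) = j + 1 := by
        push_cast
        rw [ZMod.natCast_zmod_val]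
      rw [h6] at h5
      have h7 : y.1.1 (j.val : ℤ) = y.1.1 ((j.val : ℤ) + 1) := by
        rw [← h5]
        apply Prod.ext
        · exact (div_eq_one.1 hj).symm
        · funext b
          have h8 : stp (Zc y (some b)) j = 1 := by
            apply eq_one_of_re
            have := h1 b j 0
            rw [h2 b] at this
            exact this
          exact (div_eq_one.1 h8).symm
      rw [← h7, dist_self] at h4
      linarith
    obtain ⟨e, g, heg⟩ := rl_pos h3
    exact ⟨Sum.inr (none, e), g, heg⟩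
  · rintro y (⟨b, s⟩ | ⟨c, e⟩) g
    · show lbl (us (tau y) b) s g = lbl (us y b) s (g - 1)
      rw [us_tau, lbl_shift]
    · show rl (Zc (tau y) c) e g = rl (Zc y c) e (g - 1)
      rw [Zc_tau, rl_shift]

/-- Dold's theorem in all pairs of dimensions. -/
theorem no_equivariant_lt [Fact p.Prime] {m n : ℕ} (h : m < n) :
    ¬ ∃ F : EZ n p → EZ m p, Continuous F ∧ ∀ y, F (act y) = act (F y) := by
  rintro ⟨F, hF, hFa⟩
  obtain ⟨G, hG, hGa⟩ := join_incl (p := p) (Nat.succ_le_of_lt h)
  exact no_equivariant_succ (fun x => F (G x)) (hF.comp hG) fun x => by rw [hGa, hFa]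

end Pool.Agent.LibZpIndexK
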